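import Pool.Agent.V11296.FP14

/-!
# Liouville correlations along many shifted Beatty sequences

The sum of `w(n) λ(⌊α_1 n + θ_1⌋ + h_1) ⋯ λ(⌊α_d n + θ_d⌋ + h_d)` over `n ≤ N` is at most `N / (log N) ^ U`, for ALL real
`α_i`, `θ_i` (independent over the rationals or not), all weights `w` (for instance `λ(n)`) and almost all tuples
`(h_1, …, h_d)` of integer shifts, where the number `d` of the sequences may grow like `A log log N`. The same holds for
arbitrary sequences of size `O(N)` which take no value too often in place of the Beatty sequences.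
-/

set_option autoImplicit false

namespace Pool.Agent.Results.MP_67663b_nt.ShiftedBeattySequences

open Finset

/-- The Liouville function. -/
def lam (n : ℕ) : ℤ := (-1) ^ ArithmeticFunction.cardFactors n

/-- The additive energy of order `p` of the family `s 1, …, s x`: the number of the solutions of
`s (v 1) + … + s (v p) = s (w 1) + … + s (w p)` with all `v i`, `w i` in `{1, …, x}`. -/
def energy (p x : ℕ) (s : ℕ → ℤ) : ℕ :=
  (((Fintype.piFinset fun _ : Fin p => Icc 1 x) ×ˢ (Fintype.piFinset fun _ : Fin p => Icc 1 x)).filter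
    (fun q => ∑ i, s (q.1 i) = ∑ i, s (q.2 i))).card

/-- The `d`-tuples of numbers from `1` to `x`. -/
def tuples (d x : ℕ) : Finset (Fin d → ℕ) := Fintype.piFinset fun _ => Icc 1 x

/-- The sum over `n ≤ N` of `w(n)` times the product of the `λ(f i n + h i)`, `i ∈ J`. -/
noncomputable def corr (w : ℕ → ℝ) {d : ℕ} (f : Fin d → ℕ → ℕ) (N : ℕ) (h : Fin d → ℕ) (J : Finset (Fin d)) : ℝ :=
  ∑ n ∈ Icc 1 N, w n * ∏ i ∈ J, (lam (f i n + h i) : ℝ)

open Classical in
/-- The number of the `n ≤ N` in `E`. -/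
noncomputable def total (E : Set ℕ) (N : ℕ) : ℕ := ((Icc 1 N).filter fun n => n ∈ E).card

open Classical in
/-- The number of the `n ≤ N` in `E` with `λ(f i n + h i) = v i` for all `i`. -/
noncomputable def count (E : Set ℕ) {d : ℕ} (f : Fin d → ℕ → ℕ) (N : ℕ) (h : Fin d → ℕ) (v : Fin d → ℤ) : ℕ :=
  ((Icc 1 N).filter fun n => n ∈ E ∧ ∀ i, lam (f i n + h i) = v i).card

theorem result :
    (∀ p B C A U : ℕ, ∃ N₀ : ℕ, ∀ N : ℕ, N₀ ≤ N → ∀ (x : ℕ) (s : ℕ → ℕ), (∀ m ∈ Icc 1 x, s m ≤ B * N) →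
      (energy p x (fun m => (s m : ℤ)) : ℝ) * N ≤ Real.log N ^ C * (x : ℝ) ^ (2 * p) →
      ∀ d : ℕ, (d : ℝ) ≤ A * Real.log (Real.log N) → ∀ f : Fin d → ℕ → ℕ,
      (∀ i, ∀ n ∈ Icc 1 N, 1 ≤ f i n ∧ f i n ≤ B * N) → (∀ i a, ((Icc 1 N).filter fun n => f i n = a).card ≤ B) →
      ∀ w : ℕ → ℝ, (∀ n ∈ Icc 1 N, |w n| ≤ Real.log N ^ A) → ∀ E : Set ℕ,
      ∃ T ⊆ tuples d x, (T.card : ℝ) ≤ (x : ℝ) ^ d / Real.log N ^ U ∧ ∀ m ∈ tuples d x, m ∉ T →
        (∀ J : Finset (Fin d), J.Nonempty → |corr w f N (fun i => s (m i)) J| ≤ N / Real.log N ^ U) ∧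
        ∀ v : Fin d → ℤ, (∀ i, v i = 1 ∨ v i = -1) →
          |(count E f N (fun i => s (m i)) v : ℝ) - total E N / 2 ^ d| ≤ N / Real.log N ^ U) ∧
    (∀ p B C A U : ℕ, ∃ N₀ : ℕ, ∀ N : ℕ, N₀ ≤ N → ∀ (x : ℕ) (s : ℕ → ℕ), (∀ m ∈ Icc 1 x, s m ≤ B * N) →
      (energy p x (fun m => (s m : ℤ)) : ℝ) * N ≤ Real.log N ^ C * (x : ℝ) ^ (2 * p) →
      ∀ d : ℕ, (d : ℝ) ≤ A * Real.log (Real.log N) → ∀ α θ : Fin d → ℝ, (∀ i, 1 ≤ B * α i ∧ α i ≤ B) →
      (∀ i, 0 ≤ θ i ∧ θ i ≤ B * N ∧ 1 ≤ α i + θ i) →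
      ∀ w : ℕ → ℝ, (∀ n ∈ Icc 1 N, |w n| ≤ Real.log N ^ A) → ∀ E : Set ℕ,
      ∃ T ⊆ tuples d x, (T.card : ℝ) ≤ (x : ℝ) ^ d / Real.log N ^ U ∧ ∀ m ∈ tuples d x, m ∉ T →
        (∀ J : Finset (Fin d), J.Nonempty →
          |corr w (fun i n => ⌊α i * n + θ i⌋₊) N (fun i => s (m i)) J| ≤ N / Real.log N ^ U) ∧
        ∀ v : Fin d → ℤ, (∀ i, v i = 1 ∨ v i = -1) →
          |(count E (fun i n => ⌊α i * n + θ i⌋₊) N (fun i => s (m i)) v : ℝ) - total E N / 2 ^ d| ≤
            N / Real.log N ^ U) := by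
  classical
  have hlr : ∀ n : ℕ, Pool.Agent.V11296.FP.lr n = (lam n : ℝ) := by
    intro n
    unfold Pool.Agent.V11296.FP.lr lam
    push_cast
    rfl
  have first : ∀ p B C A U : ℕ, ∃ N₀ : ℕ, ∀ N : ℕ, N₀ ≤ N → ∀ (x : ℕ) (s : ℕ → ℕ), (∀ m ∈ Icc 1 x, s m ≤ B * N) →
      (energy p x (fun m => (s m : ℤ)) : ℝ) * N ≤ Real.log N ^ C * (x : ℝ) ^ (2 * p) →
      ∀ d : ℕ, (d : ℝ) ≤ A * Real.log (Real.log N) → ∀ f : Fin d → ℕ → ℕ,
      (∀ i, ∀ n ∈ Icc 1 N, 1 ≤ f i n ∧ f i n ≤ B * N) → (∀ i a, ((Icc 1 N).filter fun n => f i n = a).card ≤ B) →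
      ∀ w : ℕ → ℝ, (∀ n ∈ Icc 1 N, |w n| ≤ Real.log N ^ A) → ∀ E : Set ℕ,
      ∃ T ⊆ tuples d x, (T.card : ℝ) ≤ (x : ℝ) ^ d / Real.log N ^ U ∧ ∀ m ∈ tuples d x, m ∉ T →
        (∀ J : Finset (Fin d), J.Nonempty → |corr w f N (fun i => s (m i)) J| ≤ N / Real.log N ^ U) ∧
        ∀ v : Fin d → ℤ, (∀ i, v i = 1 ∨ v i = -1) →
          |(count E f N (fun i => s (m i)) v : ℝ) - total E N / 2 ^ d| ≤ N / Real.log N ^ U := by
    intro p B C A U
    obtain ⟨N₀, h3, h⟩ := Pool.Agent.V11296.FP.mainF p B C (A + 1) U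
    refine ⟨max N₀ 8, fun N hN x s hs hen d hd f hf1 hf2 w hw E => ?_⟩
    have hNr : (8 : ℝ) ≤ N := by exact_mod_cast (le_max_right _ _).trans hN
    have hlog2 : 2 ≤ Real.log N := by
      rw [Real.le_log_iff_exp_le (by linarith)]
      have h1 := Real.exp_one_lt_d9
      have h2 : Real.exp 2 = Real.exp 1 ^ 2 := by
        rw [← Real.exp_nat_mul]
        norm_num
      rw [h2]
      have h4 : Real.exp 1 ^ 2 ≤ 2.7182818286 ^ 2 := pow_le_pow_left₀ (Real.exp_pos 1).le h1.le 2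
      refine h4.trans (le_trans ?_ hNr)
      norm_num
    have hll : 0 ≤ Real.log (Real.log N) := Real.log_nonneg (by linarith)
    have hpA : (1 : ℝ) ≤ Real.log N ^ A := one_le_pow₀ (by linarith)
    have hpA1 : 2 * Real.log N ^ A ≤ Real.log N ^ (A + 1) := by
      rw [pow_succ]
      nlinarith
    obtain ⟨T, hT, hTc, hTg⟩ := h N ((le_max_left _ _).trans hN) x s hs hen d (by push_cast; nlinarith) 2
      (by push_cast; linarith) (fun l => if l = 0 then w else Pool.Agent.V11296.FP.ind E) (fun _ => f)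
      (by
        intro l n hn
        by_cases hl : l = 0
        · rw [if_pos hl]
          exact (hw n hn).trans (by linarith)
        · rw [if_neg hl]
          exact (Pool.Agent.V11296.FP.ind_le E n).trans (by linarith)) (fun _ => hf1) (fun _ => hf2)
    refine ⟨T, hT, hTc, fun m hm hmT => ⟨fun J hJ => ?_, fun v hv => ?_⟩⟩
    · have h1 := hTg m hm hmT 0 J hJ
      rw [if_pos rfl] at h1
      have h2 : Pool.Agent.V11296.FP.wf w f N (fun i => s (m i)) J = corr w f N (fun i => s (m i)) J := by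
        unfold Pool.Agent.V11296.FP.wf corr
        simp only [hlr]
      rw [← h2]
      exact h1
    · have h1 := Pool.Agent.V11296.FP.cnt_wf N (N / Real.log N ^ U) (by positivity) E f (fun i => s (m i)) (fun J hJ => by
        have h2 := hTg m hm hmT 1 J hJ
        rw [if_neg (by decide)] at h2
        exact h2) (fun i => (v i : ℝ)) (by
        intro i
        rcases hv i with h | h <;> rw [h]
        · left; norm_num
        · right; norm_num)
      have h2 : ((Icc 1 N).filter fun n => n ∈ E ∧ ∀ i, Pool.Agent.V11296.FP.lr (f i n + s (m i)) = ((v i : ℤ) : ℝ)) =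
          ((Icc 1 N).filter fun n => n ∈ E ∧ ∀ i, lam (f i n + s (m i)) = v i) := by
        refine filter_congr fun n _ => ?_
        simp only [hlr, Int.cast_inj]
      rw [h2] at h1
      exact h1
  refine ⟨first, ?_⟩
  intro p B C A U
  obtain ⟨N₀, h⟩ := first p (2 * B + 1) C A U
  refine ⟨N₀, fun N hN x s hs hen d hd α θ hα hθ w hw E => ?_⟩
  refine h N hN x s (fun m hm => (hs m hm).trans (by nlinarith)) hen d hd (fun i n => ⌊α i * n + θ i⌋₊) ?_ ?_ w hw E
  · intro i n hn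
    rw [mem_Icc] at hn
    have hn1 : (1 : ℝ) ≤ n := by exact_mod_cast hn.1
    have hn2 : (n : ℝ) ≤ N := by exact_mod_cast hn.2
    have hα0 : 0 ≤ α i := by
      by_contra hcon
      push Not at hcon
      have h1 := (hα i).1
      have h2 : (0 : ℝ) ≤ B := Nat.cast_nonneg B
      nlinarith
    obtain ⟨t1, t2, t3⟩ := hθ i
    constructor
    · apply Nat.le_floor
      push_cast
      nlinarith
    · apply Nat.floor_le_of_le
      push_cast
      have h3 : α i * n ≤ B * N := mul_le_mul (hα i).2 hn2 (by linarith) (Nat.cast_nonneg B)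
      have h4 : (0 : ℝ) ≤ N := Nat.cast_nonneg N
      nlinarith
  · intro i a
    have hB : 1 ≤ B := by
      rcases Nat.eq_zero_or_pos B with h0 | h0
      · exfalso
        have h1 := (hα i).1
        rw [h0] at h1
        norm_num at h1
      · exact h0
    exact (Pool.Agent.V11296.FP.beatty_fib B N hB (α i) (θ i) (hα i).1 (hθ i).1 a).trans (by omega)

end Pool.Agent.Results.MP_67663b_nt.ShiftedBeattySequences
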